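import Mathlib
import Pool.Agent.V1184.RF.Linf
import Pool.Agent.V1184.RF.Opn
import Pool.Agent.V1184.RF.Real

set_option autoImplicit false

/-!
# Reflexivity of the uniform groups of families in an LCA group (MP_c93b6d_al, Q1)

`X` is a locally compact Hausdorff abelian group (written multiplicatively; the uniformity is the
one given by its group topology), `I` any index set. `Fam I X` is `X^I` with the uniform topology,
`c0 I X` its subgroup `c₀^I(X)` and `linf I X` its subgroup `ℓ_∞^I(X)`, with the induced
topologies. `Reflexive G` says that the evaluation map into the bidual (dual groups
`G →ₜ* Circle` with the compact-open topology) is a homeomorphism, i.e. an isomorphism of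
topological groups.

All three groups are reflexive. The theorem is proved, with no further hypothesis, for every `X`
that has an open subgroup topologically isomorphic to `ℝ^n × K` with `K` compact: by the principal
structure theorem of locally compact abelian groups this is every LCA group `X`. Alternatively
(second part of the hypothesis) it is proved for every LCA group `X` that is reflexive, which by
the Pontryagin-van Kampen duality theorem is again every LCA group.
-/

namespace Pool.Agent.Results.MP_c93b6d_al.AllThreeReflexive

open Pool.Agent.V1184.RF

/-- `X` has an open subgroup topologically isomorphic to `ℝ^n × K` for some `n` and some compact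
Hausdorff abelian group `K` (`Multiplicative ℝ` is the additive group `ℝ`, written
multiplicatively, with its usual topology). -/
def HasOpenVectorCompact (X : Type) [CommGroup X] [TopologicalSpace X] : Prop :=
  ∃ (n : ℕ) (K : Type) (_ : CommGroup K) (_ : TopologicalSpace K) (_ : IsTopologicalGroup K)
    (_ : CompactSpace K) (_ : T2Space K) (A : Subgroup X),
    IsOpen (A : Set X) ∧ Nonempty (((Fin n → Multiplicative ℝ) × K) ≃ₜ* A)

theorem result (X : Type) [CommGroup X] [UniformSpace X] [IsUniformGroup X]
    [LocallyCompactSpace X] [T2Space X]
    (hX : HasOpenVectorCompact X ∨ Reflexive X)
    (I : Type) :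
    Reflexive (c0 I X) ∧ Reflexive (linf I X) ∧ Reflexive (Fam I X) := by
  have hR : Reflexive X := by
    rcases hX with ⟨n, K, _, _, _, _, _, A, hA, ⟨e⟩⟩ | h
    · exact struct_refl n K A hA e
    · exact h
  exact ⟨c0_reflexive hR, linf_reflexive hR, open_sub _ linf_isOpen (linf_reflexive hR)⟩

end Pool.Agent.Results.MP_c93b6d_al.AllThreeReflexive
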